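import Pool.Agent.UInv.Form

/-!
# The u-invariant of a field with finitely many square classes

A finite u-invariant of a field of characteristic not two with finitely many square classes is a
power of two (so it is not 13).
-/

namespace Pool.Agent.Results.MP_32d808_al.FinitelyManySquareClasses

open Pool.Agent.Hhelper2 Pool.Agent.UInv

universe u

/-- The u-invariant of `F` is `n`: there is an anisotropic quadratic form in `n` variables over `F`,
and every anisotropic quadratic form over `F` has at most `n` variables. -/
def IsUInvariant (F : Type u) [Field F] (n : ℕ) : Prop :=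
  (∃ Q : QuadraticForm F (Fin n → F), QuadraticMap.Anisotropic Q) ∧
    ∀ (m : ℕ) (Q : QuadraticForm F (Fin m → F)), QuadraticMap.Anisotropic Q → m ≤ n

theorem result (F : Type u) [Field F] (h2 : ringChar F ≠ 2)
    (hfin : Finite (Fˣ ⧸ Subgroup.square Fˣ)) (n : ℕ) (hn : IsUInvariant F n) :
    ∃ k : ℕ, n = 2 ^ k := by
  have h2' : (2 : F) ≠ 0 := Ring.two_ne_zero h2
  have hU : U (QStr.ofField F) n := by
    by_contra h
    obtain ⟨Q, hQ⟩ := exists_aniso h2' h
    have := hn.2 _ Q hQ
    omega
  have hmin : ∀ m, m < n → ¬ U (QStr.ofField F) m := by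
    intro m hm h
    obtain ⟨Q, hQ⟩ := hn.1
    have := le_of_aniso h2' h Q hQ
    omega
  obtain ⟨-, ⟨k, h1, h3⟩ | h1⟩ := good_field _ F h2' hfin rfl
  · refine ⟨k, ?_⟩
    rcases lt_trichotomy n (2 ^ k) with h | h | h
    · exact absurd hU (h3 _ h)
    · exact h
    · exact absurd h1 (hmin _ h)
  · exact absurd hU (h1 n)

end Pool.Agent.Results.MP_32d808_al.FinitelyManySquareClasses
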